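import Mathlib

/-!
Antidiagonal chains in 0-1 fillings of the quadrant and the peeling lemma.
-/

namespace Pool.Agent.R59.Ferrers

/-- `E F b L a c`: the set `F` of cells contains a chain of `L` cells, all in rows `< a` and in
columns `≥ c` and `< b`, whose rows strictly increase while the columns strictly decrease. -/
def E (F : Set (ℕ × ℕ)) (b : ℕ) : ℕ → ℕ → ℕ → Prop
  | 0, _, _ => True
  | L + 1, a, c => ∃ r s, r < a ∧ c ≤ s ∧ s < b ∧ (r, s) ∈ F ∧ E F b L r (s + 1)

theorem E_zero (F : Set (ℕ × ℕ)) (b a c : ℕ) : E F b 0 a c := trivial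

theorem E_mono {F F' : Set (ℕ × ℕ)} {b b' : ℕ} (hF : F ⊆ F') (hb : b ≤ b') :
    ∀ {L a c a' c' : ℕ}, E F b L a c → a ≤ a' → c' ≤ c → E F' b' L a' c' := by
  intro L
  induction L with
  | zero => intros; trivial
  | succ L ih =>
    intro a c a' c' h ha hc
    obtain ⟨r, s, h1, h2, h3, h4, h5⟩ := h
    exact ⟨r, s, by omega, by omega, by omega, hF h4, ih h5 le_rfl le_rfl⟩

/-- Only the part of `F` inside the window matters. -/
theorem E_congr {F F' : Set (ℕ × ℕ)} {b : ℕ} :
    ∀ {L a c : ℕ}, (∀ r s, r < a → c ≤ s → s < b → (r, s) ∈ F → (r, s) ∈ F') →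
      E F b L a c → E F' b L a c := by
  intro L
  induction L with
  | zero => intros; trivial
  | succ L ih =>
    intro a c hF h
    obtain ⟨r, s, h1, h2, h3, h4, h5⟩ := h
    refine ⟨r, s, h1, h2, h3, hF r s h1 h2 h3 h4, ih ?_ h5⟩
    intro r' s' g1 g2 g3 g4
    exact hF r' s' (by omega) (by omega) g3 g4

theorem E_shorter {F : Set (ℕ × ℕ)} {b L L' a c : ℕ} (h : E F b L a c) (hL : L' ≤ L) :
    E F b L' a c := by
  induction L generalizing L' a c with
  | zero =>
    have : L' = 0 := by omega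
    subst this; trivial
  | succ L ih =>
    cases L' with
    | zero => trivial
    | succ L' =>
      obtain ⟨r, s, h1, h2, h3, h4, h5⟩ := h
      exact ⟨r, s, h1, h2, h3, h4, ih h5 (by omega)⟩

theorem E_le_row {F : Set (ℕ × ℕ)} {b : ℕ} : ∀ {L a c : ℕ}, E F b L a c → L ≤ a := by
  intro L
  induction L with
  | zero => intros; omega
  | succ L ih =>
    intro a c h
    obtain ⟨r, s, h1, h2, h3, h4, h5⟩ := h
    have := ih h5
    omega

theorem E_le_col {F : Set (ℕ × ℕ)} {b : ℕ} :
    ∀ {L a c : ℕ}, E F b L a c → c ≤ b → L + c ≤ b := by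
  intro L
  induction L with
  | zero => intros; omega
  | succ L ih =>
    intro a c h hc
    obtain ⟨r, s, h1, h2, h3, h4, h5⟩ := h
    have := ih h5 (by omega)
    omega

/-- Split a chain at row `P`. -/
theorem E_split {F : Set (ℕ × ℕ)} {b : ℕ} (P : ℕ) :
    ∀ {L a c : ℕ}, E F b L a c → c ≤ b →
      ∃ L1 t c', L = L1 + t ∧ t ≤ a - P ∧ c + t ≤ c' ∧ c' ≤ b ∧ E F b L1 P c' := by
  intro L
  induction L with
  | zero =>
    intro a c h hc
    exact ⟨0, 0, c, rfl, by omega, by omega, hc, trivial⟩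
  | succ L ih =>
    intro a c h hc
    obtain ⟨r, s, h1, h2, h3, h4, h5⟩ := h
    by_cases hr : r < P
    · exact ⟨L + 1, 0, c, rfl, by omega, by omega, hc, ⟨r, s, hr, h2, h3, h4, h5⟩⟩
    · obtain ⟨L1, t, c', e1, e2, e3, e4, e5⟩ := ih h5 (by omega)
      exact ⟨L1, t + 1, c', by omega, by omega, by omega, e4, e5⟩

/-- Append a diagonal of `t` cells below the chain. -/
theorem E_append {F : Set (ℕ × ℕ)} {b P q : ℕ} (hF : ∀ r s, P ≤ r → s < q → (r, s) ∈ F) :
    ∀ {t L c : ℕ}, E F b L P (c + t) → c + t ≤ q → c + t ≤ b → E F b (L + t) (P + t) c := by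
  intro t
  induction t with
  | zero => intro L c h _ _; exact h
  | succ t ih =>
    intro L c h h1 h2
    have h' : E F b (L + t) (P + t) (c + 1) := by
      apply ih _ (by omega) (by omega)
      have : c + 1 + t = c + (t + 1) := by omega
      rw [this]; exact h
    exact ⟨P + t, c, by omega, le_rfl, by omega, hF _ _ (by omega) (by omega), h'⟩

/-- All cells after `(p, q)` in the reading order (rows downwards, each row from right to left)
lie in `F`. -/
def After (F : Set (ℕ × ℕ)) (p q : ℕ) : Prop :=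
  ∀ r s, (p < r ∨ (r = p ∧ s < q)) → (r, s) ∈ F

/-- Claim C. -/
theorem claimC {F : Set (ℕ × ℕ)} {p q b L : ℕ} (hA : After F p q) (hpq : (p, q) ∉ F)
    (h : E F b L (p + q + 1) 0) :
    E F b L (p + q) 0 ∨ E F b (L + 1) (p + q + 2) 0 := by
  obtain ⟨L1, t, c', e1, e2, e3, e4, e5⟩ := E_split (p + 1) h (by omega)
  subst e1
  have hF1 : ∀ r s, p + 1 ≤ r → s < b → (r, s) ∈ F := fun r s hr _ => hA r s (Or.inl (by omega))
  have hF2 : ∀ r s, p ≤ r → s < q → (r, s) ∈ F := by
    intro r s hr hs
    apply hA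
    by_cases hh : p < r
    · exact Or.inl hh
    · exact Or.inr ⟨by omega, hs⟩
  have ht : t ≤ q := by omega
  by_cases htq : t < q
  · left
    have h1 : E F b L1 (p + 1) ((c' - t) + t) := by
      have : c' - t + t = c' := by omega
      rw [this]; exact e5
    have h2 := E_append hF1 h1 (by omega) (by omega)
    exact E_mono (le_refl F) le_rfl h2 (by omega) (by omega)
  · have htq' : t = q := by omega
    subst htq'
    -- long case
    have long : ∀ c'', t + 1 ≤ c'' → c'' ≤ b → E F b L1 (p + 1) c'' →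
        E F b (L1 + t + 1) (p + t + 2) 0 := by
      intro c'' g1 g2 g3
      have h1 : E F b L1 (p + 1) ((c'' - (t + 1)) + (t + 1)) := by
        have : c'' - (t + 1) + (t + 1) = c'' := by omega
        rw [this]; exact g3
      have h2 := E_append hF1 h1 (by omega) (by omega)
      have h3 := E_mono (le_refl F) (le_refl b) h2 (show p + 1 + (t + 1) ≤ p + t + 2 by omega)
        (Nat.zero_le _)
      exact h3
    by_cases hc : t + 1 ≤ c'
    · right; exact long c' hc e4 e5
    · have hc' : c' = t := by omega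
      subst hc'
      have short : E F b L1 p c' → E F b (L1 + c') (p + c') 0 := by
        intro g
        have h1 : E F b L1 p (0 + c') := by rw [zero_add]; exact g
        exact E_append hF2 h1 (by omega) (by omega)
      cases L1 with
      | zero => left; exact short trivial
      | succ L1 =>
        obtain ⟨r, s, h1, h2, h3, h4, h5⟩ := e5
        by_cases hr : r < p
        · left; exact short ⟨r, s, hr, h2, h3, h4, h5⟩
        · have hrp : r = p := by omega
          subst hrp
          have hs : s ≠ c' := by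
            intro hs; subst hs; exact hpq h4
          right
          exact long (c' + 1) le_rfl (by omega) ⟨r, s, h1, by omega, h3, h4, h5⟩

/-- Decomposition of a chain of `insert (p, q) F`. -/
theorem E_insert {F : Set (ℕ × ℕ)} {p q b : ℕ} :
    ∀ {L a c : ℕ}, E (insert (p, q) F) b L a c →
      E F b L a c ∨ ∃ L1 t, L = L1 + 1 + t ∧ p < a ∧ t ≤ a - (p + 1) ∧ c + t ≤ q ∧ q < b ∧
        E F b L1 p (q + 1) := by
  intro L
  induction L with
  | zero => intros; left; trivial
  | succ L ih =>
    intro a c h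
    obtain ⟨r, s, h1, h2, h3, h4, h5⟩ := h
    rcases h4 with h4 | h4
    · right
      obtain ⟨rfl, rfl⟩ : r = p ∧ s = q := by simpa using h4
      refine ⟨L, 0, rfl, h1, by omega, by omega, h3, ?_⟩
      refine E_congr ?_ h5
      intro r' s' g1 _ _ g4
      rcases g4 with g4 | g4
      · exfalso
        have : r' = r := by simpa using congrArg Prod.fst g4
        omega
      · exact g4
    · rcases ih h5 with g | ⟨L1, t, e1, e2, e3, e4, e5, e6⟩
      · left; exact ⟨r, s, h1, h2, h3, h4, g⟩
      · right; exact ⟨L1, t + 1, by omega, by omega, by omega, by omega, e5, e6⟩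

theorem claimG {F : Set (ℕ × ℕ)} {p q b L1 t : ℕ} (hA : After F p q)
    (ht : t ≤ q) (hq : q < b) (h : E F b L1 p (q + 1)) :
    (t < q → E F b (L1 + 1 + t) (p + t + 1) 0) ∧ E F b (L1 + 1 + t) (p + t + 2) 0 ∧
      (t = q → E F b (L1 + t) (p + q) 0) := by
  have hF1 : ∀ r s, p + 1 ≤ r → s < b → (r, s) ∈ F := fun r s hr _ => hA r s (Or.inl (by omega))
  have hF2 : ∀ r s, p ≤ r → s < q → (r, s) ∈ F := by
    intro r s hr hs
    apply hA
    by_cases hh : p < r
    · exact Or.inl hh
    · exact Or.inr ⟨by omega, hs⟩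
  refine ⟨?_, ?_, ?_⟩
  · intro htq
    have h1 : E F b L1 p ((q - (t + 1)) + (t + 1)) := by
      have : q - (t + 1) + (t + 1) = q := by omega
      rw [this]; exact E_mono (le_refl F) le_rfl h le_rfl (by omega)
    have h2 := E_append hF2 h1 (by omega) (by omega)
    have h3 := E_mono (le_refl F) (le_refl b) h2 (show p + (t + 1) ≤ p + t + 1 by omega)
      (Nat.zero_le _)
    have : L1 + (t + 1) = L1 + 1 + t := by omega
    rw [this] at h3; exact h3
  · have h1 : E F b L1 (p + 1) ((q + 1 - (t + 1)) + (t + 1)) := by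
      have : q + 1 - (t + 1) + (t + 1) = q + 1 := by omega
      rw [this]; exact E_mono (le_refl F) le_rfl h (by omega) le_rfl
    have h2 := E_append hF1 h1 (by omega) (by omega)
    have h3 := E_mono (le_refl F) (le_refl b) h2 (show p + 1 + (t + 1) ≤ p + t + 2 by omega)
      (Nat.zero_le _)
    have : L1 + (t + 1) = L1 + 1 + t := by omega
    rw [this] at h3; exact h3
  · intro htq
    subst htq
    have h1 : E F b L1 p (0 + t) := by
      rw [zero_add]; exact E_mono (le_refl F) le_rfl h le_rfl (by omega)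
    exact E_append hF2 h1 (by omega) (by omega)

/-- Claim A: away from row bound `p + q + 1` the cell `(p, q)` is irrelevant. -/
theorem claimA {F : Set (ℕ × ℕ)} {p q b L a : ℕ} (hA : After F p q) (ha : a ≠ p + q + 1)
    (h : E (insert (p, q) F) b L a 0) : E F b L a 0 := by
  rcases E_insert h with g | ⟨L1, t, e1, e2, e3, e4, e5, e6⟩
  · exact g
  · subst e1
    obtain ⟨g1, g2, g3⟩ := claimG hA (show t ≤ q by omega) e5 e6
    by_cases hlt : a ≤ p + q
    · exact E_mono (le_refl F) le_rfl (g1 (by omega)) (by omega) le_rfl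
    · exact E_mono (le_refl F) le_rfl g2 (by omega) le_rfl

/-- Claim B. -/
theorem claimB {F : Set (ℕ × ℕ)} {p q b L : ℕ} (hA : After F p q)
    (h : E (insert (p, q) F) b L (p + q + 1) 0) :
    E F b L (p + q + 1) 0 ∨
      (E F b L (p + q + 2) 0 ∧ ∃ L', L = L' + 1 ∧ E F b L' (p + q) 0) := by
  rcases E_insert h with g | ⟨L1, t, e1, e2, e3, e4, e5, e6⟩
  · exact Or.inl g
  · subst e1
    obtain ⟨g1, g2, g3⟩ := claimG hA (show t ≤ q by omega) e5 e6
    by_cases htq : t < q
    · left
      exact E_mono (le_refl F) le_rfl (g1 htq) (by omega) le_rfl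
    · right
      refine ⟨E_mono (le_refl F) le_rfl g2 (by omega) le_rfl, L1 + t, by omega, g3 (by omega)⟩

/-- Restrict the rows of a window. -/
theorem E_restrict_row {F : Set (ℕ × ℕ)} {b L a c a' : ℕ} (h : E F b L a c) (hc : c ≤ b) :
    ∃ L', L ≤ L' + (a - a') ∧ E F b L' a' c := by
  obtain ⟨L1, t, c', e1, e2, e3, e4, e5⟩ := E_split a' h hc
  exact ⟨L1, by omega, E_mono (le_refl F) le_rfl e5 le_rfl (by omega)⟩

/-- Restrict the columns of a window. -/
theorem E_restrict_col {F : Set (ℕ × ℕ)} {b b' : ℕ} :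
    ∀ {L a c : ℕ}, E F b L a c → ∃ L', L ≤ L' + (b - b') ∧ E F b' L' a c := by
  intro L
  induction L with
  | zero => intro a c _; exact ⟨0, by omega, trivial⟩
  | succ L ih =>
    intro a c h
    obtain ⟨r, s, h1, h2, h3, h4, h5⟩ := h
    by_cases hs : s < b'
    · obtain ⟨L', g1, g2⟩ := ih h5
      exact ⟨L' + 1, by omega, ⟨r, s, h1, h2, hs, h4, g2⟩⟩
    · have := E_le_col h5 (by omega)
      exact ⟨0, by omega, trivial⟩

end Pool.Agent.R59.Ferrers
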