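import Pool.Agent.R59.Ferrers.Chain

/-!
The peeling theorem: all maximal fillings with `Face u` have the same number of missing cells.
-/

namespace Pool.Agent.R59.Ferrers

/-- Rank function of `u`. -/
def rk (u : ℕ → ℕ) (a b : ℕ) : ℕ := ((Finset.range a).filter (fun i => u i < b)).card

theorem rk_succ (u : ℕ → ℕ) (a b : ℕ) :
    rk u (a + 1) b = rk u a b + if u a < b then 1 else 0 := by
  unfold rk
  rw [Finset.range_add_one, Finset.filter_insert]
  split_ifs with h
  · rw [Finset.card_insert_of_notMem (by simp)]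
  · rfl

/-- Swap of positions `j` and `j + 1`. -/
def tau (j i : ℕ) : ℕ := if i = j then j + 1 else if i = j + 1 then j else i

theorem tau_tau (j i : ℕ) : tau j (tau j i) = i := by
  unfold tau; split_ifs <;> omega

theorem tau_inj (j : ℕ) : Function.Injective (tau j) := by
  intro x y h
  have := congrArg (tau j) h
  rwa [tau_tau, tau_tau] at this

theorem tau_left (j : ℕ) : tau j j = j + 1 := by simp [tau]
theorem tau_right (j : ℕ) : tau j (j + 1) = j := by simp [tau]
theorem tau_ne {j i : ℕ} (h1 : i ≠ j) (h2 : i ≠ j + 1) : tau j i = i := by simp [tau, h1, h2]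

theorem rk_tau_lt (u : ℕ → ℕ) {j a : ℕ} (b : ℕ) (ha : a ≤ j) :
    rk (fun i => u (tau j i)) a b = rk u a b := by
  unfold rk
  congr 1
  apply Finset.filter_congr
  intro i hi
  have := Finset.mem_range.mp hi
  show u (tau j i) < b ↔ u i < b
  rw [tau_ne (by omega) (by omega)]

theorem rk_tau_mid (u : ℕ → ℕ) (j b : ℕ) :
    rk (fun i => u (tau j i)) (j + 1) b = rk u j b + if u (j + 1) < b then 1 else 0 := by
  rw [rk_succ, rk_tau_lt u b le_rfl]
  simp [tau_left]

theorem rk_tau_gt (u : ℕ → ℕ) {j : ℕ} (b : ℕ) :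
    ∀ {a : ℕ}, j + 2 ≤ a → rk (fun i => u (tau j i)) a b = rk u a b := by
  intro a
  induction a with
  | zero => intro h; omega
  | succ a ih =>
    intro h
    by_cases ha : j + 2 ≤ a
    · rw [rk_succ, rk_succ, ih ha, tau_ne (by omega) (by omega)]
    · have : a = j + 1 := by omega
      subst this
      rw [rk_succ, rk_tau_mid, rk_succ, rk_succ, tau_right]
      omega

theorem rk_tau_ne (u : ℕ → ℕ) {j a : ℕ} (b : ℕ) (h : a ≠ j + 1) :
    rk (fun i => u (tau j i)) a b = rk u a b := by
  by_cases h' : a ≤ j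
  · exact rk_tau_lt u b h'
  · exact rk_tau_gt u b (by omega)

/-- Number of inversions among positions `< N`. -/
def inv (u : ℕ → ℕ) (N : ℕ) : ℕ :=
  ((Finset.range N ×ˢ Finset.range N).filter (fun x => x.1 < x.2 ∧ u x.2 < u x.1)).card

theorem inv_tau (u : ℕ → ℕ) {j N : ℕ} (hj : j + 1 < N) (h : u (j + 1) < u j) :
    inv (fun i => u (tau j i)) N + 1 = inv u N := by
  unfold inv
  have hmem : ((j, j + 1) : ℕ × ℕ) ∈
      (Finset.range N ×ˢ Finset.range N).filter (fun x => x.1 < x.2 ∧ u x.2 < u x.1) := by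
    simp only [Finset.mem_filter, Finset.mem_product, Finset.mem_range]
    exact ⟨⟨by omega, hj⟩, by omega, h⟩
  rw [← Finset.card_erase_add_one hmem]
  congr 1
  have hlt : ∀ i, i < N → tau j i < N := by
    intro i hi
    unfold tau; split_ifs <;> omega
  apply Finset.card_nbij' (fun x => (tau j x.1, tau j x.2)) (fun x => (tau j x.1, tau j x.2))
  · rintro ⟨x, y⟩ hx
    simp only [Finset.coe_filter, Finset.mem_product, Finset.mem_range, Set.mem_ofPred_eq] at hx
    obtain ⟨⟨h1, h2⟩, h3, h4⟩ := hx
    have hne : ¬ (x = j ∧ y = j + 1) := by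
      rintro ⟨rfl, rfl⟩
      rw [tau_left, tau_right] at h4
      omega
    simp only [Finset.coe_erase, Finset.coe_filter, Finset.mem_product, Finset.mem_range,
      Set.mem_sdiff, Set.mem_ofPred_eq, Set.mem_singleton_iff, Prod.mk.injEq]
    refine ⟨⟨⟨hlt _ h1, hlt _ h2⟩, ?_, h4⟩, ?_⟩
    · unfold tau; split_ifs <;> omega
    · rintro ⟨g1, g2⟩
      have e1 : x = j + 1 := by
        have := congrArg (tau j) g1; rwa [tau_tau, tau_left] at this
      have e2 : y = j := by
        have := congrArg (tau j) g2; rwa [tau_tau, tau_right] at this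
      omega
  · rintro ⟨x, y⟩ hx
    simp only [Finset.coe_erase, Finset.coe_filter, Finset.mem_product, Finset.mem_range,
      Set.mem_sdiff, Set.mem_ofPred_eq, Set.mem_singleton_iff, Prod.mk.injEq] at hx
    obtain ⟨⟨⟨h1, h2⟩, h3, h4⟩, h5⟩ := hx
    simp only [Finset.coe_filter, Finset.mem_product, Finset.mem_range, Set.mem_ofPred_eq]
    refine ⟨⟨hlt _ h1, hlt _ h2⟩, ?_, ?_⟩
    · unfold tau; split_ifs <;> omega
    · rw [tau_tau, tau_tau]; exact h4
  · rintro ⟨x, y⟩ _
    simp [tau_tau]
  · rintro ⟨x, y⟩ _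
    simp [tau_tau]

/-- The rank conditions. -/
def Face (u : ℕ → ℕ) (F : Set (ℕ × ℕ)) : Prop :=
  ∀ b a L, E F b L a 0 → L ≤ rk u a b

theorem face_mono {u : ℕ → ℕ} {F G : Set (ℕ × ℕ)} (h : Face u G) (hFG : F ⊆ G) : Face u F :=
  fun b a L hE => h b a L (E_mono hFG le_rfl hE le_rfl le_rfl)

theorem face_asc {u : ℕ → ℕ} {F : Set (ℕ × ℕ)} {p q : ℕ} (hA : After F p q)
    (hu : u (p + q) < u (p + q + 1)) (h : Face u F) : Face u (insert (p, q) F) := by
  intro b a L hE
  by_cases ha : a = p + q + 1
  · subst ha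
    rcases claimB hA hE with g | ⟨g1, L', rfl, g2⟩
    · exact h _ _ _ g
    · have h1 := h _ _ _ g1
      have h2 := h _ _ _ g2
      rw [rk_succ, rk_succ] at h1
      rw [rk_succ]
      split_ifs at h1 ⊢ <;> omega
  · exact h _ _ _ (claimA hA ha hE)

theorem face_desc {u : ℕ → ℕ} {F : Set (ℕ × ℕ)} {p q : ℕ} (hA : After F p q)
    (_hu : u (p + q + 1) < u (p + q)) (h : Face u F) :
    Face (fun i => u (tau (p + q) i)) (insert (p, q) F) := by
  intro b a L hE
  by_cases ha : a = p + q + 1
  · subst ha
    rw [rk_tau_mid]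
    rcases claimB hA hE with g | ⟨g1, L', rfl, g2⟩
    · have h1 := h _ _ _ g
      rw [rk_succ] at h1
      split_ifs at h1 ⊢ <;> omega
    · have h1 := h _ _ _ g1
      have h2 := h _ _ _ g2
      rw [rk_succ, rk_succ] at h1
      split_ifs at h1 ⊢ <;> omega
  · rw [rk_tau_ne u b ha]
    exact h _ _ _ (claimA hA ha hE)

theorem face_back {u : ℕ → ℕ} {F : Set (ℕ × ℕ)} {p q : ℕ} (hA : After F p q)
    (hpq : (p, q) ∉ F) (hu : u (p + q + 1) < u (p + q))
    (h : Face (fun i => u (tau (p + q) i)) F) : Face u F := by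
  intro b a L hE
  by_cases ha : a = p + q + 1
  · subst ha
    rcases claimC hA hpq hE with g | g
    · have h1 := h _ _ _ g
      rw [rk_tau_lt u b le_rfl] at h1
      rw [rk_succ]; omega
    · have h1 := h _ _ _ g
      rw [rk_tau_gt u b le_rfl, rk_succ, rk_succ] at h1
      have h2 := h _ _ _ hE
      rw [rk_tau_mid] at h2
      rw [rk_succ]
      split_ifs at h1 h2 ⊢ <;> omega
  · have h1 := h _ _ _ hE
    rwa [rk_tau_ne u b ha] at h1

theorem E_univ (b : ℕ) : ∀ t, t ≤ b → E (Set.univ : Set (ℕ × ℕ)) b t t 0 := by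
  intro t ht
  have h := E_append (F := Set.univ) (b := b) (P := 0) (q := b) (fun _ _ _ _ => Set.mem_univ _)
    (t := t) (L := 0) (c := 0) trivial (by omega) (by omega)
  simpa using h

theorem face_univ_id {u : ℕ → ℕ} (hu : Function.Injective u) (h : Face u Set.univ) :
    ∀ i, u i = i := by
  have hle : ∀ i, u i ≤ i := by
    intro i
    have h1 := h (i + 1) (i + 1) (i + 1) (E_univ _ _ le_rfl)
    by_contra hc
    have h2 : rk u (i + 1) (i + 1) ≤ i := by
      unfold rk
      have : (Finset.range (i + 1)).filter (fun k => u k < i + 1) ⊆ Finset.range i := by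
        intro k hk
        simp only [Finset.mem_filter, Finset.mem_range] at hk ⊢
        by_contra hki
        have : k = i := by omega
        subst this; omega
      simpa using Finset.card_le_card this
    omega
  intro i
  induction i using Nat.strong_induction_on with
  | _ i ih =>
    by_contra hne
    have hlt : u i < i := lt_of_le_of_ne (hle i) hne
    have := ih (u i) hlt
    have := hu this
    omega

theorem inv_id {u : ℕ → ℕ} (h : ∀ i, u i = i) (N : ℕ) : inv u N = 0 := by
  unfold inv
  rw [Finset.card_eq_zero, Finset.filter_eq_empty_iff]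
  rintro ⟨x, y⟩ _ ⟨h1, h2⟩
  simp only [h] at h2
  omega

/-- Missing cells lie in rows `< p`, or in row `p` and columns `≥ q`, always in columns `< n`. -/
def Reg (n p q : ℕ) (F : Set (ℕ × ℕ)) : Prop :=
  ∀ r s, (r, s) ∉ F → s < n ∧ (r < p ∨ (r = p ∧ q ≤ s))

theorem reg_after {n p q : ℕ} {F : Set (ℕ × ℕ)} (h : Reg n p q F) : After F p q := by
  intro r s hrs
  by_contra hc
  have := h r s hc
  omega

theorem reg_finite {n p q : ℕ} {F : Set (ℕ × ℕ)} (h : Reg n p q F) : Fᶜ.Finite := by
  apply Set.Finite.subset (Finset.finite_toSet (Finset.range (p + 1) ×ˢ Finset.range n))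
  rintro ⟨r, s⟩ hrs
  have := h r s hrs
  simp only [Finset.coe_product, Finset.coe_range, Set.mem_prod, Set.mem_Iio]
  omega

theorem peel (n N : ℕ) : ∀ p d : ℕ, d ≤ n → p + n < N → ∀ (u : ℕ → ℕ) (F : Set (ℕ × ℕ)),
    Function.Injective u → Face u F → Reg n p (n - d) F →
    ∃ F', F ⊆ F' ∧ Face u F' ∧ Reg n p (n - d) F' ∧ F'ᶜ.ncard = inv u N := by
  intro p
  induction p with
  | zero =>
    intro d
    induction d with
    | zero =>
      intro _ _ u F hu hF hR
      have hFu : F = Set.univ := by
        ext ⟨r, s⟩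
        simp only [Set.mem_univ, iff_true]
        by_contra hc
        have := hR r s hc
        omega
      subst hFu
      refine ⟨Set.univ, le_rfl, hF, hR, ?_⟩
      rw [inv_id (face_univ_id hu hF)]
      simp
    | succ d ihd =>
      intro hd hN u F hu hF hR
      exact peel_step n N 0 d hd hN (ihd (by omega) hN) u F hu hF hR
  | succ p ihp =>
    intro d
    induction d with
    | zero =>
      intro _ hN u F hu hF hR
      have hR' : Reg n p (n - n) F := by
        intro r s hrs
        have := hR r s hrs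
        omega
      obtain ⟨F', h1, h2, h3, h4⟩ := ihp n le_rfl (by omega) u F hu hF hR'
      refine ⟨F', h1, h2, ?_, h4⟩
      intro r s hrs
      have := h3 r s hrs
      omega
    | succ d ihd =>
      intro hd hN u F hu hF hR
      exact peel_step n N (p + 1) d hd hN (ihd (by omega) hN) u F hu hF hR
where
  peel_step (n N p d : ℕ) (hd : d + 1 ≤ n) (hN : p + n < N)
      (ih : ∀ (u : ℕ → ℕ) (F : Set (ℕ × ℕ)),
        Function.Injective u → Face u F → Reg n p (n - d) F →
        ∃ F', F ⊆ F' ∧ Face u F' ∧ Reg n p (n - d) F' ∧ F'ᶜ.ncard = inv u N)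
      (u : ℕ → ℕ) (F : Set (ℕ × ℕ)) (hu : Function.Injective u) (hF : Face u F)
      (hR : Reg n p (n - (d + 1)) F) :
      ∃ F', F ⊆ F' ∧ Face u F' ∧ Reg n p (n - (d + 1)) F' ∧ F'ᶜ.ncard = inv u N := by
    obtain ⟨q, hq⟩ : ∃ q, q = n - (d + 1) := ⟨_, rfl⟩
    have hq1 : n - d = q + 1 := by omega
    rw [hq1] at ih
    rw [← hq] at hR ⊢
    have hweak : ∀ G : Set (ℕ × ℕ), Reg n p (q + 1) G → Reg n p q G := by
      intro G hG r s hrs
      have := hG r s hrs
      omega
    have hA := reg_after hR
    by_cases hmem : (p, q) ∈ F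
    · have hR' : Reg n p (q + 1) F := by
        intro r s hrs
        have := hR r s hrs
        have hne : ¬ (r = p ∧ s = q) := by rintro ⟨rfl, rfl⟩; exact hrs hmem
        omega
      obtain ⟨F', h1, h2, h3, h4⟩ := ih u F hu hF hR'
      exact ⟨F', h1, h2, hweak F' h3, h4⟩
    · have hRG : Reg n p (q + 1) (insert (p, q) F) := by
        intro r s hrs
        have h1 : (r, s) ∉ F := fun hh => hrs (Set.mem_insert_of_mem _ hh)
        have := hR r s h1
        have hne : ¬ (r = p ∧ s = q) := by
          rintro ⟨rfl, rfl⟩; exact hrs (Set.mem_insert _ _)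
        omega
      rcases lt_or_gt_of_ne (fun hh => by have := hu hh; omega :
          u (p + q) ≠ u (p + q + 1)) with hlt | hgt
      · obtain ⟨F', h1, h2, h3, h4⟩ := ih u _ hu (face_asc hA hlt hF) hRG
        exact ⟨F', (Set.subset_insert _ _).trans h1, h2, hweak F' h3, h4⟩
      · obtain ⟨F', h1, h2, h3, h4⟩ := ih (fun i => u (tau (p + q) i)) _
          (hu.comp (tau_inj _)) (face_desc hA hgt hF) hRG
        have hmem' : (p, q) ∈ F' := h1 (Set.mem_insert _ _)
        have hR2 : Reg n p q (F' \ {(p, q)}) := by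
          intro r s hrs
          by_cases hh : (r, s) = (p, q)
          · have e1 : r = p := by simpa using congrArg Prod.fst hh
            have e2 : s = q := by simpa using congrArg Prod.snd hh
            omega
          · have : (r, s) ∉ F' := fun h' => hrs ⟨h', hh⟩
            have := h3 r s this
            omega
        refine ⟨F' \ {(p, q)}, ?_, ?_, hR2, ?_⟩
        · intro x hx
          refine ⟨h1 (Set.mem_insert_of_mem _ hx), ?_⟩
          intro hh
          rw [Set.mem_singleton_iff] at hh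
          subst hh; exact hmem hx
        · exact face_back (reg_after hR2) (by simp) hgt (face_mono h2 Set.sdiff_subset)
        · have hc : (F' \ {(p, q)})ᶜ = insert (p, q) F'ᶜ := by
            ext x
            simp only [Set.mem_compl_iff, Set.mem_sdiff, Set.mem_singleton_iff, Set.mem_insert_iff]
            tauto
          rw [hc, Set.ncard_insert_of_notMem (by simpa using hmem') (reg_finite h3), h4]
          exact inv_tau u (by omega) hgt

end Pool.Agent.R59.Ferrers
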