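import Pool.Agent.R59.Ferrers.Shape

/-!
Saturated families: the two applications.
-/

namespace Pool.Agent.R59.Ferrers

open Classical

/-- From chains to functions. -/
theorem E_to_fun {F : Set (ℕ × ℕ)} {b : ℕ} : ∀ {L a c : ℕ}, E F b L a c →
    ∃ f : ℕ → ℕ × ℕ, (∀ i, i < L → f i ∈ F ∧ (f i).1 < a ∧ c ≤ (f i).2 ∧ (f i).2 < b) ∧
      ∀ i j, i < j → j < L → (f i).1 < (f j).1 ∧ (f j).2 < (f i).2 := by
  intro L
  induction L with
  | zero => intro a c _; exact ⟨fun _ => (0, 0), by intro i hi; omega, by intro i j _ hj; omega⟩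
  | succ L ih =>
    intro a c h
    obtain ⟨r, s, h1, h2, h3, h4, h5⟩ := h
    obtain ⟨f, g1, g2⟩ := ih h5
    refine ⟨fun i => if i < L then f i else (r, s), ?_, ?_⟩
    · intro i hi
      by_cases hiL : i < L
      · have := g1 i hiL
        simp only [hiL, if_true]
        exact ⟨this.1, by omega, by omega, this.2.2.2⟩
      · simp only [hiL, if_false]
        exact ⟨h4, h1, h2, h3⟩
    · intro i j hij hj
      by_cases hjL : j < L
      · have hiL : i < L := by omega
        simp only [hiL, hjL, if_true]
        exact g2 i j hij hjL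
      · have hiL : i < L := by omega
        simp only [hiL, hjL, if_true, if_false]
        have := g1 i hiL
        omega

/-- From functions to chains. -/
theorem E_of_fun {F : Set (ℕ × ℕ)} {b : ℕ} (f : ℕ → ℕ × ℕ) : ∀ {L a c : ℕ},
    (∀ i, i < L → f i ∈ F ∧ (f i).1 < a ∧ c ≤ (f i).2 ∧ (f i).2 < b) →
      (∀ i j, i < j → j < L → (f i).1 < (f j).1 ∧ (f j).2 < (f i).2) → E F b L a c := by
  intro L
  induction L with
  | zero => intros; trivial
  | succ L ih =>
    intro a c h1 h2
    have h := h1 L (by omega)
    refine ⟨(f L).1, (f L).2, h.2.1, h.2.2.1, h.2.2.2, h.1, ih ?_ ?_⟩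
    · intro i hi
      have h3 := h1 i (by omega)
      have h4 := h2 i L hi (by omega)
      exact ⟨h3.1, h4.1, h4.2, h3.2.2.2⟩
    · intro i j hij hj
      exact h2 i j hij (by omega)

/-- From antichains to chains. -/
theorem E_of_finset {F : Set (ℕ × ℕ)} {b : ℕ} : ∀ {L a c : ℕ} (C : Finset (ℕ × ℕ)),
    C.card = L → (∀ x ∈ C, x ∈ F ∧ x.1 < a ∧ c ≤ x.2 ∧ x.2 < b) →
      (∀ x ∈ C, ∀ y ∈ C, x ≠ y → (x.1 < y.1 ∧ y.2 < x.2) ∨ (y.1 < x.1 ∧ x.2 < y.2)) →
      E F b L a c := by
  intro L
  induction L with
  | zero => intros; trivial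
  | succ L ih =>
    intro a c C hC h1 h2
    have hne : C.Nonempty := by
      rw [← Finset.card_pos]; omega
    obtain ⟨x, hx, hmax⟩ := Finset.exists_max_image C (fun x => x.1) hne
    have h := h1 x hx
    refine ⟨x.1, x.2, h.2.1, h.2.2.1, h.2.2.2, h.1, ih (C.erase x) ?_ ?_ ?_⟩
    · rw [Finset.card_erase_of_mem hx]; omega
    · intro y hy
      rw [Finset.mem_erase] at hy
      have h3 := h1 y hy.2
      have h4 := h2 x hx y hy.2 (Ne.symm hy.1)
      have h5 := hmax y hy.2
      refine ⟨h3.1, by omega, by omega, h3.2.2.2⟩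
    · intro y hy z hz hyz
      exact h2 y (Finset.mem_of_mem_erase hy) z (Finset.mem_of_mem_erase hz) hyz

/-- `J`-type freeness. -/
def JFree (κ : ℕ) (F : Set (ℕ × ℕ)) : Prop := ∀ p q, (p, q) ∈ F → ¬ E F q (κ + 1) p 0

/-- `∨`-type freeness. -/
def VFree (κ : ℕ) (F : Set (ℕ × ℕ)) : Prop := ∀ p q, (p, q) ∈ F → ¬ E F (q + 1) (κ + 1) (p + 1) 0

/-- Row lengths of a set given by a property that is downward closed in the column. -/
theorem exists_lam (P : ℕ → ℕ → Prop) (n : ℕ) (hn : ∀ r b, P r b → b < n)
    (hd : ∀ r b b', b' ≤ b → P r b → P r b') : ∃ lam : ℕ → ℕ, ∀ r b, b < lam r ↔ P r b := by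
  have h : ∀ r, ∃ b, ¬ P r b := fun r => ⟨n, fun h => absurd (hn r n h) (by omega)⟩
  refine ⟨fun r => Nat.find (h r), ?_⟩
  intro r b
  rw [Nat.lt_find_iff]
  constructor
  · intro hh
    have := hh b le_rfl
    simpa using this
  · intro hh k hk
    simpa using hd r b k hk hh

theorem vsat_card {m n κ : ℕ} (hm : κ ≤ m) (hn : κ ≤ n) {F : Set (ℕ × ℕ)}
    (hgrid : ∀ p q, (p, q) ∈ F → p < m ∧ q < n) (hfree : VFree κ F)
    (hsat : ∀ p q, p < m → q < n → (p, q) ∉ F → ¬ VFree κ (insert (p, q) F)) :
    F.ncard = κ * (m + n - κ) := by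
  obtain ⟨lam, hlam⟩ := exists_lam
    (fun r b => r < m ∧ b < n ∧ ¬ E F (b + 1) (κ + 1) (r + 1) 0) n (fun r b h => h.2.1) (by
      rintro r b b' hb ⟨h1, h2, h3⟩
      exact ⟨h1, by omega, fun h => h3 (E_mono (le_refl F) (by omega) h le_rfl le_rfl)⟩)
  have hS : Shape m n κ lam := by
    refine ⟨?_, ?_, ?_, ?_, ?_, hm, hn⟩
    · intro r r' hr
      by_contra hc
      have h1 := (hlam r' (lam r)).mp (by omega)
      have h2 : lam r < lam r := (hlam r (lam r)).mpr ⟨by omega, h1.2.1,
        fun h => h1.2.2 (E_mono (le_refl F) le_rfl h (by omega) le_rfl)⟩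
      omega
    · intro r hr
      apply le_antisymm
      · by_contra hc
        have := (hlam r n).mp (by omega)
        omega
      · by_contra hc
        have : lam r < lam r := (hlam r (lam r)).mpr ⟨by omega, by omega, fun h => by
          have := E_le_row h; omega⟩
        omega
    · intro r
      by_contra hc
      have := (hlam r n).mp (by omega)
      omega
    · intro r hr
      by_contra hc
      have : lam r < lam r := (hlam r (lam r)).mpr ⟨by omega, by omega, fun h => by
        have := E_le_col h (by omega); omega⟩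
      omega
    · intro r hr
      by_contra hc
      have := (hlam r 0).mp (by omega)
      omega
  -- the extended set
  obtain ⟨G, hG⟩ : ∃ G : Set (ℕ × ℕ), G = {x | x ∈ F ∨ ¬ x.2 < lam x.1} := ⟨_, rfl⟩
  have hFG : F ⊆ G := by intro x hx; rw [hG]; exact Or.inl hx
  have hFT : ∀ p q, (p, q) ∈ F → q < lam p := by
    intro p q h
    exact (hlam p q).mpr ⟨(hgrid p q h).1, (hgrid p q h).2, hfree p q h⟩
  have hmaxG : Max κ lam G := by
    refine ⟨?_, ?_, ?_⟩
    · intro r s hs; rw [hG]; exact Or.inr hs
    · intro r s hs hE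
      have h1 := (hlam r s).mp hs
      apply h1.2.2
      refine E_congr ?_ hE
      intro r' s' g1 g2 g3 g4
      rw [hG] at g4
      rcases g4 with g4 | g4
      · exact g4
      · exfalso
        apply g4
        have h2 : s' < lam r := by omega
        exact lt_of_lt_of_le h2 (hS.anti r' r (by omega))
    · rintro ⟨r, s⟩ hx hcf
      have hx1 : (r, s) ∉ F := fun h => hx (hFG h)
      have hx2 : s < lam r := by
        by_contra hc
        apply hx; rw [hG]; exact Or.inr hc
      have hx3 := (hlam r s).mp hx2
      apply hsat r s hx3.1 hx3.2.1 hx1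
      intro p q hpq hE
      have hpq' : q < lam p := by
        rcases hpq with hpq | hpq
        · obtain ⟨rfl, rfl⟩ : p = r ∧ q = s := by simpa using hpq
          exact hx2
        · exact hFT p q hpq
      exact hcf p q hpq' (E_mono (Set.insert_subset_insert hFG) le_rfl hE le_rfl le_rfl)
  have hcard := inShape_max hS hmaxG
  have : F = (inShape m n lam G : Set (ℕ × ℕ)) := by
    ext ⟨p, q⟩
    unfold inShape
    simp only [Finset.coe_filter, Finset.mem_product, Finset.mem_range, Set.mem_ofPred_eq]
    constructor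
    · intro h
      exact ⟨hgrid p q h, hFT p q h, hFG h⟩
    · rintro ⟨_, h2, h3⟩
      rw [hG] at h3
      rcases h3 with h3 | h3
      · exact h3
      · exact absurd h2 h3
  rw [this, Set.ncard_coe_finset, hcard]

theorem jsat_card {m n κ : ℕ} (hm : κ + 1 ≤ m) (hn : κ + 1 ≤ n) {F : Set (ℕ × ℕ)}
    (hgrid : ∀ p q, (p, q) ∈ F → p < m ∧ q < n) (hfree : JFree κ F)
    (hsat : ∀ p q, p < m → q < n → (p, q) ∉ F → ¬ JFree κ (insert (p, q) F)) :
    F.ncard = (κ + 1) * (m + n - (κ + 1)) := by
  obtain ⟨lam, hlam⟩ := exists_lam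
    (fun r b => r + 1 < m ∧ b + 1 < n ∧ ¬ E F (b + 1) (κ + 1) (r + 1) 0) n
    (fun r b h => by omega) (by
      rintro r b b' hb ⟨h1, h2, h3⟩
      exact ⟨h1, by omega, fun h => h3 (E_mono (le_refl F) (by omega) h le_rfl le_rfl)⟩)
  have hS : Shape (m - 1) (n - 1) κ lam := by
    refine ⟨?_, ?_, ?_, ?_, ?_, by omega, by omega⟩
    · intro r r' hr
      by_contra hc
      have h1 := (hlam r' (lam r)).mp (by omega)
      have h2 : lam r < lam r := (hlam r (lam r)).mpr ⟨by omega, h1.2.1,
        fun h => h1.2.2 (E_mono (le_refl F) le_rfl h (by omega) le_rfl)⟩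
      omega
    · intro r hr
      apply le_antisymm
      · by_contra hc
        have := (hlam r (n - 1)).mp (by omega)
        omega
      · by_contra hc
        have : lam r < lam r := (hlam r (lam r)).mpr ⟨by omega, by omega, fun h => by
          have := E_le_row h; omega⟩
        omega
    · intro r
      by_contra hc
      have := (hlam r (n - 1)).mp (by omega)
      omega
    · intro r hr
      by_contra hc
      have : lam r < lam r := (hlam r (lam r)).mpr ⟨by omega, by omega, fun h => by
        have := E_le_col h (by omega); omega⟩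
      omega
    · intro r hr
      by_contra hc
      have := (hlam r 0).mp (by omega)
      omega
  obtain ⟨G, hG⟩ : ∃ G : Set (ℕ × ℕ), G = {x | x ∈ F ∨ ¬ x.2 < lam x.1} := ⟨_, rfl⟩
  have hFG : F ⊆ G := by intro x hx; rw [hG]; exact Or.inl hx
  have hmaxG : Max κ lam G := by
    refine ⟨?_, ?_, ?_⟩
    · intro r s hs; rw [hG]; exact Or.inr hs
    · intro r s hs hE
      have h1 := (hlam r s).mp hs
      apply h1.2.2
      refine E_congr ?_ hE
      intro r' s' g1 g2 g3 g4
      rw [hG] at g4
      rcases g4 with g4 | g4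
      · exact g4
      · exfalso
        apply g4
        have h2 : s' < lam r := by omega
        exact lt_of_lt_of_le h2 (hS.anti r' r (by omega))
    · rintro ⟨r, s⟩ hx hcf
      have hx1 : (r, s) ∉ F := fun h => hx (hFG h)
      have hx2 : s < lam r := by
        by_contra hc
        apply hx; rw [hG]; exact Or.inr hc
      have hx3 := (hlam r s).mp hx2
      apply hsat r s (by omega) (by omega) hx1
      intro p q hpq hE
      have hp := E_le_row hE
      have hq := E_le_col hE (Nat.zero_le _)
      have hpq' : q - 1 < lam (p - 1) := by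
        rcases hpq with hpq | hpq
        · exfalso
          obtain ⟨rfl, rfl⟩ : p = r ∧ q = s := by simpa using hpq
          apply hx3.2.2
          refine E_mono (le_refl F) (Nat.le_succ _) (E_congr ?_ hE) (Nat.le_succ _) le_rfl
          intro r' s' g1 g2 g3 g4
          rcases g4 with g4 | g4
          · have : r' = p := by simpa using congrArg Prod.fst g4
            omega
          · exact g4
        · have h1 := hgrid p q hpq
          have h2 := hfree p q hpq
          refine (hlam (p - 1) (q - 1)).mpr ⟨by omega, by omega, ?_⟩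
          rw [Nat.sub_add_cancel (by omega), Nat.sub_add_cancel (by omega)]
          exact h2
      have h3 := hcf (p - 1) (q - 1) hpq'
      rw [Nat.sub_add_cancel (by omega), Nat.sub_add_cancel (by omega)] at h3
      exact h3 (E_mono (Set.insert_subset_insert hFG) le_rfl hE le_rfl le_rfl)
  have hcard := inShape_max hS hmaxG
  -- the set `R`
  obtain ⟨R, hR⟩ : ∃ R : Finset (ℕ × ℕ), R = (Finset.range m ×ˢ Finset.range n).filter
      (fun x => ¬ E F x.2 (κ + 1) x.1 0) := ⟨_, rfl⟩
  obtain ⟨T, hT⟩ : ∃ T : Finset (ℕ × ℕ), T = inShape (m - 1) (n - 1) lam Set.univ := ⟨_, rfl⟩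
  have memR : ∀ p q, (p, q) ∈ R ↔ p < m ∧ q < n ∧ ¬ E F q (κ + 1) p 0 := by
    intro p q
    rw [hR]
    simp only [Finset.mem_filter, Finset.mem_product, Finset.mem_range]
    tauto
  have memT : ∀ p q, (p, q) ∈ T ↔ q < lam p := by
    intro p q
    rw [hT]
    unfold inShape
    simp only [Finset.mem_filter, Finset.mem_product, Finset.mem_range, Set.mem_univ, and_true]
    constructor
    · exact fun h => h.2
    · intro h
      have := (hlam p q).mp h
      exact ⟨⟨by omega, by omega⟩, h⟩
  have hTR : T ⊆ R := by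
    rintro ⟨p, q⟩ h
    have h1 := (hlam p q).mp ((memT p q).mp h)
    rw [memR]
    exact ⟨by omega, by omega, fun h2 => h1.2.2
      (E_mono (le_refl F) (Nat.le_succ _) h2 (Nat.le_succ _) le_rfl)⟩
  have hRcard : R.card = T.card + (m + n - 1) := by
    have hdec : R = (T.image (fun x => (x.1 + 1, x.2 + 1))) ∪
        (({0} ×ˢ Finset.range n) ∪ (Finset.Ico 1 m ×ˢ {0}) : Finset (ℕ × ℕ)) := by
      ext ⟨p, q⟩
      rw [memR]
      simp only [Finset.mem_union, Finset.mem_image, Finset.mem_product, Finset.mem_singleton,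
        Finset.mem_range, Finset.mem_Ico, Prod.mk.injEq, Prod.exists]
      constructor
      · rintro ⟨h1, h2, h3⟩
        by_cases hp : p = 0
        · right; left; exact ⟨hp, h2⟩
        · by_cases hq : q = 0
          · right; right; exact ⟨by omega, hq⟩
          · left
            refine ⟨p - 1, q - 1, ?_, by omega, by omega⟩
            rw [memT, hlam]
            refine ⟨by omega, by omega, ?_⟩
            rw [Nat.sub_add_cancel (by omega), Nat.sub_add_cancel (by omega)]
            exact h3
      · rintro (⟨a, b, h1, h2, h3⟩ | ⟨h1, h2⟩ | ⟨h1, h2⟩)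
        · rw [memT, hlam] at h1
          subst h2; subst h3
          exact ⟨h1.1, h1.2.1, h1.2.2⟩
        · subst h1
          exact ⟨by omega, h2, fun h => by have := E_le_row h; omega⟩
        · subst h2
          exact ⟨by omega, by omega, fun h => by have := E_le_col h (Nat.zero_le _); omega⟩
    rw [hdec, Finset.card_union_of_disjoint, Finset.card_union_of_disjoint,
      Finset.card_image_of_injective]
    · simp only [Finset.card_product, Finset.card_singleton, Finset.card_range, Nat.card_Ico]
      omega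
    · intro x y h
      simp only [Prod.mk.injEq] at h
      ext <;> omega
    · rw [Finset.disjoint_left]
      rintro ⟨p, q⟩ h1 h2
      simp only [Finset.mem_product, Finset.mem_singleton, Finset.mem_range,
        Finset.mem_Ico] at h1 h2
      omega
    · rw [Finset.disjoint_left]
      rintro ⟨p, q⟩ h1 h2
      simp only [Finset.mem_union, Finset.mem_image, Finset.mem_product, Finset.mem_singleton,
        Finset.mem_range, Finset.mem_Ico, Prod.mk.injEq, Prod.exists] at h1 h2
      obtain ⟨a, b, _, h3, h4⟩ := h1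
      omega
  have hFdec : F = ((inShape (m - 1) (n - 1) lam G ∪ (R \ T) : Finset (ℕ × ℕ)) :
      Set (ℕ × ℕ)) := by
    ext ⟨p, q⟩
    rw [Finset.mem_coe, Finset.mem_union, Finset.mem_sdiff, memR, memT]
    unfold inShape
    simp only [Finset.mem_filter, Finset.mem_product, Finset.mem_range]
    constructor
    · intro h
      by_cases hq : q < lam p
      · left
        have := (hlam p q).mp hq
        exact ⟨⟨by omega, by omega⟩, hq, hFG h⟩
      · right
        exact ⟨⟨(hgrid p q h).1, (hgrid p q h).2, hfree p q h⟩, hq⟩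
    · rintro (⟨_, h2, h3⟩ | ⟨⟨h1, h2, h3⟩, h4⟩)
      · rw [hG] at h3
        rcases h3 with h3 | h3
        · exact h3
        · exact absurd h2 h3
      · by_contra hc
        apply hsat p q h1 h2 hc
        intro p' q' hpq hE
        by_cases hin : p < p' ∧ q < q'
        · rcases hpq with hpq | hpq
          · obtain ⟨rfl, rfl⟩ : p' = p ∧ q' = q := by simpa using hpq
            omega
          · have g1 := hgrid p' q' hpq
            have g2 := hfree p' q' hpq
            have g3 : q' - 1 < lam (p' - 1) := by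
              refine (hlam (p' - 1) (q' - 1)).mpr ⟨by omega, by omega, ?_⟩
              rw [Nat.sub_add_cancel (by omega), Nat.sub_add_cancel (by omega)]
              exact g2
            have g4 := hS.anti p (p' - 1) (by omega)
            omega
        · have hE' : E F q' (κ + 1) p' 0 := by
            refine E_congr ?_ hE
            intro r' s' g1 g2 g3 g4
            rcases g4 with g4 | g4
            · exfalso
              obtain ⟨rfl, rfl⟩ : r' = p ∧ s' = q := by simpa using g4
              exact hin ⟨g1, g3⟩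
            · exact g4
          rcases hpq with hpq | hpq
          · obtain ⟨rfl, rfl⟩ : p' = p ∧ q' = q := by simpa using hpq
            exact h3 hE'
          · exact hfree p' q' hpq hE'
  have hcardR : (R \ T).card = m + n - 1 := by
    have := Finset.card_sdiff_add_card_eq_card hTR
    omega
  rw [hFdec, Set.ncard_coe_finset, Finset.card_union_of_disjoint, hcard, hcardR]
  · obtain ⟨a, ha⟩ : ∃ a, m = κ + 1 + a := ⟨m - (κ + 1), by omega⟩
    obtain ⟨c, hc⟩ : ∃ c, n = κ + 1 + c := ⟨n - (κ + 1), by omega⟩
    subst ha; subst hc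
    have e1 : κ + 1 + a - 1 + (κ + 1 + c - 1) - κ = κ + a + c := by omega
    have e2 : κ + 1 + a + (κ + 1 + c) - 1 = 2 * κ + 1 + a + c := by omega
    have e3 : κ + 1 + a + (κ + 1 + c) - (κ + 1) = κ + 1 + a + c := by omega
    rw [e1, e2, e3]
    ring
  · rw [Finset.disjoint_left]
    rintro ⟨p, q⟩ h1 h2
    rw [Finset.mem_sdiff, memT] at h2
    unfold inShape at h1
    simp only [Finset.mem_filter] at h1
    exact h2.2 h1.2.1

end Pool.Agent.R59.Ferrers
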