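import Pool.Agent.R59.Ferrers.Peel

/-!
Ferrers shapes: every maximal chain-free filling has the same size.
-/

namespace Pool.Agent.R59.Ferrers

/-- The greedy sequence attached to lower bounds `mu`. -/
noncomputable def gw (mu : ℕ → ℕ) : ℕ → ℕ
  | i => sInf {v | mu i ≤ v ∧ ∀ k, (_h : k < i) → gw mu k ≠ v}
  termination_by i => i

theorem gw_nonempty (mu : ℕ → ℕ) (i : ℕ) :
    {v | mu i ≤ v ∧ ∀ k, (_h : k < i) → gw mu k ≠ v}.Nonempty := by
  refine ⟨mu i + (∑ k ∈ Finset.range i, gw mu k) + 1, by omega, ?_⟩
  intro k hk he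
  have := Finset.single_le_sum (f := gw mu) (fun _ _ => Nat.zero_le _)
    (Finset.mem_range.mpr hk)
  omega

theorem gw_mem (mu : ℕ → ℕ) (i : ℕ) : mu i ≤ gw mu i ∧ ∀ k, k < i → gw mu k ≠ gw mu i := by
  have h := Nat.sInf_mem (gw_nonempty mu i)
  have e : gw mu i = sInf {v | mu i ≤ v ∧ ∀ k, (_h : k < i) → gw mu k ≠ v} := by
    rw [gw]
  rw [← e] at h
  exact h

theorem gw_min (mu : ℕ → ℕ) (i v : ℕ) (h1 : mu i ≤ v) (h2 : v < gw mu i) :
    ∃ k, k < i ∧ gw mu k = v := by
  by_contra hc
  push Not at hc
  have e : gw mu i = sInf {v | mu i ≤ v ∧ ∀ k, (_h : k < i) → gw mu k ≠ v} := by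
    rw [gw]
  have h3 : v ∈ {v | mu i ≤ v ∧ ∀ k, (_h : k < i) → gw mu k ≠ v} := ⟨h1, hc⟩
  have h4 := Nat.sInf_le h3
  rw [← e] at h4
  omega

theorem gw_inj (mu : ℕ → ℕ) : Function.Injective (gw mu) := by
  intro x y h
  by_contra hne
  rcases lt_or_gt_of_ne hne with h1 | h1
  · exact (gw_mem mu y).2 x h1 h
  · exact (gw_mem mu x).2 y h1 h.symm

/-- A shape: rows `0, …, m - 1`, row `r` consists of the columns `< lam r`; the first `κ` rows
are full (length `n`), all rows `< m` have length at least `κ`. -/
structure Shape (m n κ : ℕ) (lam : ℕ → ℕ) : Prop where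
  anti : ∀ r r', r ≤ r' → lam r' ≤ lam r
  full : ∀ r, r < κ → lam r = n
  le : ∀ r, lam r ≤ n
  ge : ∀ r, r < m → κ ≤ lam r
  zero : ∀ r, m ≤ r → lam r = 0
  km : κ ≤ m
  kn : κ ≤ n

/-- No chain of `κ + 1` cells inside a window whose corner lies in the shape. -/
def CF (κ : ℕ) (lam : ℕ → ℕ) (F : Set (ℕ × ℕ)) : Prop :=
  ∀ r s, s < lam r → ¬ E F (s + 1) (κ + 1) (r + 1) 0

/-- Lower bounds for the greedy sequence. -/
def mu (κ : ℕ) (lam : ℕ → ℕ) (i : ℕ) : ℕ := if i < κ then 0 else lam i

theorem gw_small {κ : ℕ} {lam : ℕ → ℕ} : ∀ i, i < κ → gw (mu κ lam) i = i := by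
  intro i
  induction i using Nat.strong_induction_on with
  | _ i ih =>
    intro hi
    have hmu : mu κ lam i = 0 := by simp [mu, hi]
    rcases lt_trichotomy (gw (mu κ lam) i) i with h | h | h
    · have h1 := ih _ h (by omega)
      have := (gw_mem (mu κ lam) i).2 _ h
      omega
    · exact h
    · obtain ⟨k, hk, hk'⟩ := gw_min (mu κ lam) i i (by omega) h
      have := ih k hk (by omega)
      omega

theorem face_of_cf {m n κ : ℕ} {lam : ℕ → ℕ} (hS : Shape m n κ lam) {F : Set (ℕ × ℕ)}
    (hF : CF κ lam F) : Face (gw (mu κ lam)) F := by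
  intro b a L hE
  by_contra hL
  push Not at hL
  set w := gw (mu κ lam) with hw
  have hLa := E_le_row hE
  have hLb := E_le_col hE (Nat.zero_le _)
  -- an index `i < a` with `w i ≥ b`
  have hex : ((Finset.range a).filter (fun i => b ≤ w i)).Nonempty := by
    by_contra hemp
    rw [Finset.not_nonempty_iff_eq_empty, Finset.filter_eq_empty_iff] at hemp
    have : rk w a b = a := by
      unfold rk
      rw [Finset.filter_true_of_mem, Finset.card_range]
      intro i hi
      have := hemp hi
      omega
    omega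
  obtain ⟨i, hi, hmax⟩ := Finset.exists_max_image _ (fun i => i) hex
  simp only [Finset.mem_filter, Finset.mem_range] at hi hmax
  obtain ⟨hia, hib⟩ := hi
  -- an unused value
  have hunused : ∃ v, v < b ∧ ∀ k, k < a → w k ≠ v := by
    by_contra hc
    push Not at hc
    have : Finset.range b ⊆ ((Finset.range a).filter (fun i => w i < b)).image w := by
      intro v hv
      rw [Finset.mem_range] at hv
      obtain ⟨k, hk, hkv⟩ := hc v hv
      simp only [Finset.mem_image, Finset.mem_filter, Finset.mem_range]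
      exact ⟨k, ⟨hk, by omega⟩, hkv⟩
    have h1 := Finset.card_le_card this
    rw [Finset.card_range] at h1
    have h2 : (((Finset.range a).filter (fun i => w i < b)).image w).card ≤ rk w a b :=
      Finset.card_image_le
    omega
  obtain ⟨v, hvb, hv⟩ := hunused
  have hvmu : v < mu κ lam i := by
    by_contra hc
    obtain ⟨k, hk, hk'⟩ := gw_min (mu κ lam) i v (by omega) (by rw [← hw]; omega)
    exact hv k (by omega) hk'
  have hκi : κ ≤ i := by
    by_contra hc
    simp [mu, (by omega : i < κ)] at hvmu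
  have hmu : mu κ lam i = lam i := by unfold mu; rw [if_neg (by omega)]
  rw [hmu] at hvmu
  obtain ⟨j, hj⟩ : ∃ j, j = min b (lam i) := ⟨_, rfl⟩
  have hj0 : 0 < j := by omega
  -- upper bound for `L`
  obtain ⟨L1, hL1, hE1⟩ := E_restrict_row (a' := i + 1) hE (Nat.zero_le _)
  obtain ⟨L2, hL2, hE2⟩ := E_restrict_col (b' := j) hE1
  have hL2κ : L2 ≤ κ := by
    by_contra hc
    have h1 := hF i (j - 1) (by omega)
    rw [Nat.sub_add_cancel hj0] at h1
    exact h1 (E_shorter hE2 (by omega))
  have hL2j : L2 ≤ j := by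
    have := E_le_col hE2 (Nat.zero_le _)
    omega
  -- lower bound for the rank
  have hrk : (a - (i + 1)) + (b - j) + min κ j ≤ rk w a b := by
    have hA : Disjoint (Finset.Ioo i a)
        ((Finset.range i).filter (fun k => j ≤ w k ∧ w k < b)) := by
      rw [Finset.disjoint_left]
      intro k hk hk'
      simp only [Finset.mem_Ioo, Finset.mem_filter, Finset.mem_range] at hk hk'
      omega
    have hB : Disjoint (Finset.Ioo i a ∪ (Finset.range i).filter (fun k => j ≤ w k ∧ w k < b))
        (Finset.range (min κ j)) := by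
      rw [Finset.disjoint_left]
      intro k hk hk'
      simp only [Finset.mem_union, Finset.mem_Ioo, Finset.mem_filter, Finset.mem_range] at hk hk'
      have hk2 := gw_small (κ := κ) (lam := lam) k (by omega)
      rw [← hw] at hk2
      omega
    have hsub : (Finset.Ioo i a ∪ (Finset.range i).filter (fun k => j ≤ w k ∧ w k < b)) ∪
        (Finset.range (min κ j)) ⊆ (Finset.range a).filter (fun k => w k < b) := by
      intro k hk
      simp only [Finset.mem_union, Finset.mem_Ioo, Finset.mem_filter, Finset.mem_range] at hk ⊢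
      rcases hk with (hk | hk) | hk
      · refine ⟨hk.2, ?_⟩
        by_contra hc
        have := hmax k ⟨hk.2, by omega⟩
        omega
      · exact ⟨by omega, hk.2.2⟩
      · have hk2 := gw_small (κ := κ) (lam := lam) k (by omega)
        rw [← hw] at hk2
        omega
    have h1 := Finset.card_le_card hsub
    rw [Finset.card_union_of_disjoint hB, Finset.card_union_of_disjoint hA, Nat.card_Ioo,
      Finset.card_range] at h1
    have h2 : b - j ≤ ((Finset.range i).filter (fun k => j ≤ w k ∧ w k < b)).card := by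
      have : Finset.Ico j b ⊆
          ((Finset.range i).filter (fun k => j ≤ w k ∧ w k < b)).image w := by
        intro v' hv'
        rw [Finset.mem_Ico] at hv'
        obtain ⟨k, hk, hk'⟩ := gw_min (mu κ lam) i v' (by omega) (by rw [← hw]; omega)
        rw [← hw] at hk'
        simp only [Finset.mem_image, Finset.mem_filter, Finset.mem_range]
        exact ⟨k, ⟨hk, by omega, by omega⟩, hk'⟩
      have h3 := Finset.card_le_card this
      rw [Nat.card_Ico] at h3
      exact h3.trans Finset.card_image_le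
    unfold rk
    omega
  omega

theorem cf_of_face {m n κ : ℕ} {lam : ℕ → ℕ} (hS : Shape m n κ lam) {F : Set (ℕ × ℕ)}
    (hF : Face (gw (mu κ lam)) F) : CF κ lam F := by
  intro r s hs hE
  have h1 := hF _ _ _ hE
  have h2 : rk (gw (mu κ lam)) (r + 1) (s + 1) ≤ κ := by
    unfold rk
    have : (Finset.range (r + 1)).filter (fun i => gw (mu κ lam) i < s + 1) ⊆
        Finset.range κ := by
      intro i hi
      simp only [Finset.mem_filter, Finset.mem_range] at hi ⊢
      by_contra hc
      have h3 := (gw_mem (mu κ lam) i).1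
      have h4 : mu κ lam i = lam i := by simp [mu, hc]
      have h5 := hS.anti i r (by omega)
      omega
    simpa using Finset.card_le_card this
  omega

/-- `F` contains everything outside the shape, is chain free and maximal with this property. -/
def Max (κ : ℕ) (lam : ℕ → ℕ) (F : Set (ℕ × ℕ)) : Prop :=
  (∀ r s, ¬ s < lam r → (r, s) ∈ F) ∧ CF κ lam F ∧
    ∀ x, x ∉ F → ¬ CF κ lam (insert x F)

theorem max_ncard {m n κ : ℕ} {lam : ℕ → ℕ} (hS : Shape m n κ lam) {F : Set (ℕ × ℕ)}
    (hF : Max κ lam F) : Fᶜ.ncard = inv (gw (mu κ lam)) (m + n + 1) := by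
  obtain ⟨h1, h2, h3⟩ := hF
  have hR : Reg n m (n - 0) F := by
    intro r s hrs
    have h4 : s < lam r := by
      by_contra hc
      exact hrs (h1 r s hc)
    have h5 := hS.le r
    refine ⟨by omega, Or.inl ?_⟩
    by_contra hc
    have := hS.zero r (by omega)
    omega
  obtain ⟨F', g1, g2, g3, g4⟩ := peel n (m + n + 1) m 0 (Nat.zero_le _) (by omega) _ F
    (gw_inj (mu κ lam)) (face_of_cf hS h2) hR
  have : F = F' := by
    apply Set.Subset.antisymm g1
    intro x hx
    by_contra hc
    apply h3 x hc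
    have : insert x F ⊆ F' := Set.insert_subset hx g1
    exact cf_of_face hS (face_mono g2 this)
  rw [this]; exact g4

/-- The explicit maximal filling. -/
def F0 (κ : ℕ) (lam : ℕ → ℕ) : Set (ℕ × ℕ) := {x | ¬ (κ ≤ x.1 ∧ x.2 + κ < lam x.1)}

theorem F0_diag (κ : ℕ) (lam : ℕ → ℕ) (b : ℕ) : ∀ t, t ≤ κ → t ≤ b →
    E (F0 κ lam) b t t (b - t) := by
  intro t
  induction t with
  | zero => intros; trivial
  | succ t ih =>
    intro h1 h2
    refine ⟨t, b - (t + 1), by omega, le_rfl, by omega, ?_, ?_⟩
    · show ¬ (κ ≤ t ∧ _)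
      omega
    · have := ih (by omega) (by omega)
      rwa [show b - (t + 1) + 1 = b - t by omega]

theorem F0_max {m n κ : ℕ} {lam : ℕ → ℕ} (hS : Shape m n κ lam) : Max κ lam (F0 κ lam) := by
  refine ⟨?_, ?_, ?_⟩
  · intro r s hs
    show ¬ (κ ≤ r ∧ s + κ < lam r)
    omega
  · rintro r s hs ⟨r1, s1, h1, _, h3, h4, h5⟩
    have h6 := E_le_row h5
    have h7 := E_le_col h5 (by omega)
    have h8 : ¬ (κ ≤ r1 ∧ s1 + κ < lam r1) := h4
    have h9 := hS.anti r1 r (by omega)
    omega
  · rintro ⟨r, s⟩ hx hcf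
    have hx' : κ ≤ r ∧ s + κ < lam r := by
      by_contra hc; exact hx hc
    have h1 := hcf r (lam r - 1) (by omega)
    rw [show lam r - 1 + 1 = lam r by omega] at h1
    apply h1
    refine ⟨r, s, by omega, by omega, by omega, Set.mem_insert _ _, ?_⟩
    exact E_mono (Set.subset_insert _ _) le_rfl
      (F0_diag κ lam (lam r) κ le_rfl (by omega)) hx'.1 (by omega)

open Classical in
/-- The cells of the shape lying in `F`. -/
noncomputable def inShape (m n : ℕ) (lam : ℕ → ℕ) (F : Set (ℕ × ℕ)) : Finset (ℕ × ℕ) :=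
  (Finset.range m ×ˢ Finset.range n).filter (fun x => x.2 < lam x.1 ∧ x ∈ F)

open Classical in
theorem inShape_add {m n κ : ℕ} {lam : ℕ → ℕ} (hS : Shape m n κ lam) {F : Set (ℕ × ℕ)}
    (hF : ∀ r s, ¬ s < lam r → (r, s) ∈ F) :
    (inShape m n lam F).card + Fᶜ.ncard = (inShape m n lam Set.univ).card := by
  have h : Fᶜ = ((Finset.range m ×ˢ Finset.range n).filter
      (fun x => x.2 < lam x.1 ∧ x ∉ F) : Finset (ℕ × ℕ)) := by
    ext ⟨r, s⟩
    simp only [Set.mem_compl_iff, Finset.coe_filter, Finset.mem_product, Finset.mem_range,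
      Set.mem_ofPred_eq]
    constructor
    · intro hx
      have h4 : s < lam r := by
        by_contra hc
        exact hx (hF r s hc)
      have h5 := hS.le r
      refine ⟨⟨?_, by omega⟩, h4, hx⟩
      by_contra hc
      have := hS.zero r (by omega)
      omega
    · exact fun hx => hx.2.2
  rw [h, Set.ncard_coe_finset]
  unfold inShape
  rw [← Finset.card_union_of_disjoint]
  · congr 1
    ext x
    simp only [Finset.mem_union, Finset.mem_filter, Set.mem_univ, and_true]
    tauto
  · rw [Finset.disjoint_left]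
    intro x hx hx'
    simp only [Finset.mem_filter] at hx hx'
    exact hx'.2.2 hx.2.2

open Classical in
theorem inShape_F0 {m n κ : ℕ} {lam : ℕ → ℕ} (hS : Shape m n κ lam) :
    (inShape m n lam (F0 κ lam)).card = κ * (m + n - κ) := by
  unfold inShape
  rw [Finset.card_filter, Finset.sum_product]
  have hrow : ∀ r ∈ Finset.range m, (∑ s ∈ Finset.range n,
      if (s < lam r ∧ (r, s) ∈ F0 κ lam) then 1 else 0) = if r < κ then n else κ := by
    intro r hr
    rw [Finset.mem_range] at hr
    rw [← Finset.card_filter]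
    have hln := hS.le r
    by_cases hrk : r < κ
    · have hl := hS.full r hrk
      rw [Finset.filter_true_of_mem, Finset.card_range, if_pos hrk]
      intro s hs
      rw [Finset.mem_range] at hs
      refine ⟨by omega, ?_⟩
      show ¬ (κ ≤ r ∧ _)
      omega
    · have hl := hS.ge r hr
      have : (Finset.range n).filter (fun s => s < lam r ∧ (r, s) ∈ F0 κ lam) =
          Finset.Ico (lam r - κ) (lam r) := by
        ext s
        have hF0 : (r, s) ∈ F0 κ lam ↔ ¬ (κ ≤ r ∧ s + κ < lam r) := Iff.rfl
        rw [Finset.mem_filter, hF0, Finset.mem_range, Finset.mem_Ico]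
        omega
      rw [this, Nat.card_Ico, if_neg hrk]
      omega
  rw [Finset.sum_congr rfl hrow, Finset.sum_ite, Finset.sum_const, Finset.sum_const]
  have h1 : ((Finset.range m).filter (fun r => r < κ)).card = κ := by
    have : (Finset.range m).filter (fun r => r < κ) = Finset.range κ := by
      ext r
      simp only [Finset.mem_filter, Finset.mem_range]
      have := hS.km
      omega
    rw [this, Finset.card_range]
  have h2 : ((Finset.range m).filter (fun r => ¬ r < κ)).card = m - κ := by
    have : (Finset.range m).filter (fun r => ¬ r < κ) = Finset.Ico κ m := by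
      ext r
      simp only [Finset.mem_filter, Finset.mem_range, Finset.mem_Ico]
      omega
    rw [this, Nat.card_Ico]
  rw [h1, h2, smul_eq_mul, smul_eq_mul]
  have h3 := hS.km
  have h4 : m + n - κ = n + (m - κ) := by omega
  rw [h4]
  ring

/-- Every maximal filling has `κ (m + n - κ)` cells in the shape. -/
theorem inShape_max {m n κ : ℕ} {lam : ℕ → ℕ} (hS : Shape m n κ lam) {F : Set (ℕ × ℕ)}
    (hF : Max κ lam F) : (inShape m n lam F).card = κ * (m + n - κ) := by
  have h1 := inShape_add hS hF.1
  have h2 := inShape_add hS (F0_max hS).1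
  rw [max_ncard hS hF] at h1
  rw [max_ncard hS (F0_max hS), inShape_F0 hS] at h2
  omega

end Pool.Agent.R59.Ferrers
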